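import Pool.Agent.L0h77.MO.Stm

/-!
# Groups with infinite abelianization all of whose proper subgroups are cyclic
-/

set_option autoImplicit false

namespace Pool.Agent.L0h28.MO

open Pool.Agent.L0h77.MO

theorem exists_surj (A : Type) [CommGroup A] [Group.FG A] [Infinite A] :
    ∃ φ : A →* Multiplicative ℤ, Function.Surjective φ := by
  obtain ⟨ι, j, hι, hj, p, hp, e, ⟨E⟩⟩ := CommGroup.equiv_free_prod_prod_multiplicative_zmod A
  have hne : Nonempty j := by
    by_contra h
    rw [not_nonempty_iff] at h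
    have h1 : ∀ i, Finite (Multiplicative (ZMod (p i ^ e i))) := by
      intro i
      haveI : NeZero (p i ^ e i) := ⟨pow_ne_zero _ (hp i).ne_zero⟩
      infer_instance
    have h2 : Finite ((j → Multiplicative ℤ) × ((i : ι) → Multiplicative (ZMod (p i ^ e i)))) :=
      inferInstance
    exact (Finite.of_equiv _ E.symm.toEquiv).not_infinite inferInstance
  obtain ⟨i0⟩ := hne
  classical
  refine ⟨(Pi.evalMonoidHom (fun _ : j => Multiplicative ℤ) i0).comp
    ((MonoidHom.fst _ _).comp E.toMonoidHom), ?_⟩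
  intro z
  refine ⟨E.symm (fun _ => z, 1), ?_⟩
  simp

theorem t_CYZ : S_CYZ := by
  intro G _ _ hG hA
  haveI : Group.FG (Abelianization G) := QuotientGroup.fg _
  obtain ⟨ψ, hψ⟩ := exists_surj (Abelianization G)
  set φ : G →* Multiplicative ℤ := ψ.comp Abelianization.of with hφ
  have hs : Function.Surjective φ := hψ.comp (QuotientGroup.mk'_surjective _)
  set H : Subgroup G := (Subgroup.zpowers (Multiplicative.ofAdd (2 : ℤ))).comap φ with hH
  have hHt : H ≠ ⊤ := by
    intro h
    obtain ⟨g, hg⟩ := hs (Multiplicative.ofAdd (1 : ℤ))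
    have h1 : g ∈ H := by rw [h]; trivial
    rw [hH, Subgroup.mem_comap, hg, Subgroup.mem_zpowers_iff] at h1
    obtain ⟨k, hk⟩ := h1
    rw [← ofAdd_zsmul] at hk
    have h2 := Multiplicative.ofAdd.injective hk
    rw [smul_eq_mul] at h2
    omega
  obtain ⟨⟨h, hh⟩, hgen⟩ := (hG H hHt).exists_generator
  have key : ∀ x ∈ H, ∃ m : ℤ, h ^ m = x := by
    intro x hx
    obtain ⟨m, hm⟩ := Subgroup.mem_zpowers_iff.1 (hgen ⟨x, hx⟩)
    exact ⟨m, by simpa using congrArg Subtype.val hm⟩
  have hne : Multiplicative.toAdd (φ h) ≠ 0 := by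
    intro h0
    obtain ⟨g, hg⟩ := hs (Multiplicative.ofAdd (2 : ℤ))
    have h1 : g ∈ H := by
      rw [hH, Subgroup.mem_comap, hg]
      exact Subgroup.mem_zpowers _
    obtain ⟨m, hm⟩ := key g h1
    have h2 : φ h = 1 := Multiplicative.toAdd.injective (by simpa using h0)
    have h3 : φ g = 1 := by rw [← hm, map_zpow, h2, one_zpow]
    rw [hg] at h3
    have h4 := congrArg Multiplicative.toAdd h3
    simp at h4
  have hinj : Function.Injective φ := by
    rw [injective_iff_map_eq_one]
    intro x hx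
    have h1 : x ∈ H := by
      rw [hH, Subgroup.mem_comap, hx]
      exact Subgroup.one_mem _
    obtain ⟨m, hm⟩ := key x h1
    rw [← hm, map_zpow] at hx
    have h2 := congrArg Multiplicative.toAdd hx
    rw [toAdd_zpow, toAdd_one, smul_eq_mul, mul_eq_zero] at h2
    rcases h2 with h2 | h2
    · rw [← hm, h2, zpow_zero]
    · exact absurd h2 hne
  exact isCyclic_of_injective φ hinj

end Pool.Agent.L0h28.MO
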